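import Mathlib
import Pool.Agent.Helper80.KD.Wid
import Pool.Agent.Helper82.FL.SoundM

/-!
# The vertices of a group
-/

set_option autoImplicit false

namespace Pool.Agent.Helper21.KD

open Pool.Agent.Helper80.KD
open Pool.Agent.Helper80.TP (IM RD pr force force_eq R9 vI)
open Pool.Agent.Helper82.FL (G3 smG chM Rs mrgM B1)
open Pool.Agent.Helper28.TT (M3)

/-- the vertex with the code `v` -/
noncomputable def vG (z x1 x2 x3 v : Nat) : G3 :=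
  G3.mk (z * bt (tI x1 x2 x3 (v % 4)) (v % 4) (v >>> 2) 1)
    (z * bt (tI x1 x2 x3 (v % 4)) (v % 4) (v >>> 2) 2)
    (z * bt (tI x1 x2 x3 (v % 4)) (v % 4) (v >>> 2) 3)

/-- the matrix in rows -/
def m3 (A : IM) : M3 := M3.mk (A 0 0) (A 0 1) (A 0 2) (A 1 0) (A 1 1) (A 1 2) (A 2 0) (A 2 1) (A 2 2)

theorem vt1_eq (z x1 x2 x3 v : Nat) (k : G3 → Bool) : vt1 z x1 x2 x3 v k = k (vG z x1 x2 x3 v) := by
  unfold vt1
  simp only [force_eq]
  rfl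

theorem vts_eq (z x1 x2 x3 : Nat) (l : List Nat) (k : List G3 → Bool) :
    vts z x1 x2 x3 l k = k (l.map (vG z x1 x2 x3)) := by
  induction l generalizing k with
  | nil => rfl
  | cons v l ih =>
    have h : vts z x1 x2 x3 (v :: l) k = vt1 z x1 x2 x3 v fun g => vts z x1 x2 x3 l fun t => k (List.cons g t) := rfl
    rw [h, vt1_eq, ih]
    rfl

theorem tI_le {x1 x2 x3 : Nat} (h1 : x1 ≤ 256) (h2 : x2 ≤ 256) (h3 : x3 ≤ 256) (i : Nat) :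
    tI x1 x2 x3 i ≤ 256 := by
  rcases i with _ | _ | _ | i
  · exact Nat.zero_le _
  · exact h1
  · exact h2
  · exact h3

theorem bt_eq (n i t w : Nat) : bt n i t w = (256 - n) * ind i w + n * ind t w := rfl

theorem bt_le {n : Nat} (hn : n ≤ 256) (i t w : Nat) : bt n i t w ≤ 256 := by
  rw [bt_eq]
  have h1 := Nat.mul_le_mul_left (256 - n) (ind_le i w)
  have h2 := Nat.mul_le_mul_left n (ind_le t w)
  omega

theorem vG_small {z x1 x2 x3 : Nat} (hz : z ≤ 2 ^ 16) (h1 : x1 ≤ 256) (h2 : x2 ≤ 256) (h3 : x3 ≤ 256)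
    (v : Nat) : smG (vG z x1 x2 x3 v) := by
  have key : ∀ w, z * bt (tI x1 x2 x3 (v % 4)) (v % 4) (v >>> 2) w ≤ 2 ^ 52 := fun w =>
    (Nat.mul_le_mul hz (bt_le (tI_le h1 h2 h3 (v % 4)) (v % 4) (v >>> 2) w)).trans (by norm_num)
  exact ⟨key 1, key 2, key 3⟩

theorem R9_B1 : (R9 : ℕ) = B1 ^ 9 := by decide +kernel

theorem R9_ge : 8 ≤ R9 := by decide +kernel

theorem um_rs (g : Nat) : Rs (um g) ((g : ℤ) - 8) := by
  have h : ((um g : ℕ) : ℤ) = (g : ℤ) - 8 + (B1 : ℤ) ^ 9 := by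
    have h1 : um g = g + (R9 - 8) := rfl
    rw [h1, Nat.cast_add, Nat.cast_sub R9_ge, R9_B1]
    push_cast
    ring
  unfold Rs
  rw [h]
  exact (Int.modEq_iff_dvd.2 ⟨-1, by ring⟩)

theorem um_ok (n : Nat) : Rs (um (g0 n)) (pt n 0) ∧ Rs (um (g1 n)) (pt n 1) ∧ Rs (um (g2 n)) (pt n 2) ∧
    ∀ i, |pt n i| ≤ 8 := by
  refine ⟨um_rs _, um_rs _, um_rs _, fun i => ?_⟩
  have h := pt_bd n i
  rw [abs_le]
  constructor <;> linarith [h.1, h.2]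

/-- the parameter of `i`, as an integer -/
theorem tI_cast (x1 x2 x3 : Nat) (i : Fin 4) :
    ((tI x1 x2 x3 i.val : ℕ) : ℤ) = (![0, (x1 : ℤ), (x2 : ℤ), (x3 : ℤ)] : Fin 4 → ℤ) i := by
  fin_cases i <;> rfl

theorem code_mod (i t : Fin 4) : (i.val + 4 * t.val) % 4 = i.val := by omega
theorem code_shift (i t : Fin 4) : (i.val + 4 * t.val) >>> 2 = t.val := by
  rw [Nat.shiftRight_eq_div_pow]
  omega

/-- the value of the row `r` of the vertex -/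
theorem bt_ev {x1 x2 x3 : Nat} (h1 : x1 ≤ 256) (h2 : x2 ≤ 256) (h3 : x3 ≤ 256) (i t : Fin 4)
    (h0 : i = 0 → t = 0) (r : Fin 3) :
    ((bt (tI x1 x2 x3 ((i.val + 4 * t.val) % 4)) ((i.val + 4 * t.val) % 4) ((i.val + 4 * t.val) >>> 2)
      ((r : ℕ) + 1) : ℕ) : ℤ) = ev (fun m => cX i t m r) (x1 : ℤ) x2 x3 := by
  rw [code_mod, code_shift, bt_eq, evI_cX i t h0, ← tI_cast x1 x2 x3 i]
  have h := tI_le h1 h2 h3 i.val
  rw [Nat.cast_add, Nat.cast_mul, Nat.cast_mul, Nat.cast_sub h]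
  push_cast
  ring

theorem chM_eq (A : IM) (z x1 x2 x3 : Nat) (h1 : x1 ≤ 256) (h2 : x2 ≤ 256) (h3 : x3 ≤ 256)
    (i t j t' : Fin 4) (h0 : i = 0 → t = 0) (h0' : j = 0 → t' = 0) (v : Fin 3 → Int) :
    chM (m3 A) (vG z x1 x2 x3 (i.val + 4 * t.val)) (vG z x1 x2 x3 (j.val + 4 * t'.val)) (v 0) (v 1) (v 2) =
      m3 (fun r k => A r k + z * evI (wX i t j t' v) x1 x2 x3 r k) := by
  have a0 := bt_ev h1 h2 h3 i t h0 0
  have a1 := bt_ev h1 h2 h3 i t h0 1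
  have a2 := bt_ev h1 h2 h3 i t h0 2
  have b0 := bt_ev h1 h2 h3 j t' h0' 0
  have b1 := bt_ev h1 h2 h3 j t' h0' 1
  have b2 := bt_ev h1 h2 h3 j t' h0' 2
  have e0 : ((0 : Fin 3) : ℕ) + 1 = 1 := rfl
  have e1 : ((1 : Fin 3) : ℕ) + 1 = 2 := rfl
  have e2 : ((2 : Fin 3) : ℕ) + 1 = 3 := rfl
  rw [e0] at a0 b0
  rw [e1] at a1 b1
  rw [e2] at a2 b2
  unfold chM mrgM m3 vG
  simp only [evI_wX, ← a0, ← a1, ← a2, ← b0, ← b1, ← b2]
  push_cast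
  congr 1 <;> ring

end Pool.Agent.Helper21.KD
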