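import Mathlib
import Pool.Agent.Helper80.KD.Tag
import Pool.Agent.Helper82.FL.SoundM
import Pool.Agent.Helper21.KD.Grp

/-!
# The leaf: the corners of the box
-/

set_option autoImplicit false

namespace Pool.Agent.Helper21.KD

open Finset
open Pool.Agent.Helper80.KD
open Pool.Agent.Helper80.TP (IM RD pr Item force force_eq R9 vI comb bl dvK Seven rowX rowY BB)
open Pool.Agent.Helper82.FL (Hd V DC G3 mkHd Rs Rows B1 Data M3bd)
open Pool.Agent.Helper28.TT (M3)

/-- the weighted sum keeps a property -/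
theorem comb_P {T : ℕ → Prop} {P : ℕ → Prop} (hP : ∀ acc w N, P acc → T N → P (acc + w * N))
    (fin : Nat → Bool) (env : List Item) (henv : ∀ N, Item.f N ∈ env → T N) :
    ∀ (k : Nat → Nat → Nat → Nat → Bool),
    (∀ n w r acc, P acc → k n w r acc = true → ∃ acc', P acc' ∧ fin acc' = true) →
    ∀ n w r acc, P acc → comb fin env k n w r acc = true → ∃ acc', P acc' ∧ fin acc' = true := by
  induction env with
  | nil => exact fun k hk => hk
  | cons a l ih =>
    intro k hk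
    refine ih (fun N hN => henv N (List.mem_cons_of_mem _ hN)) _ ?_
    intro n w r acc hacc h
    cases n with
    | succ m => exact hk m w r acc hacc h
    | zero =>
      cases a with
      | t N => exact Bool.noConfusion (show false = true from h)
      | f N =>
        have hN : T N := henv N List.mem_cons_self
        have h3 : P (Nat.add acc (Nat.mul w N)) := hP acc w N hacc hN
        cases r with
        | zero => exact ⟨_, h3, h⟩
        | succ r => exact hk _ _ _ _ h3 h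

theorem sumD_P {T : ℕ → Prop} {P : ℕ → Prop} (hP : ∀ acc w N, P acc → T N → P (acc + w * N))
    {fin : Nat → Bool} {env : List Item} (henv : ∀ N, Item.f N ∈ env → T N) {w acc : ℕ} (h0 : P acc)
    (h : sumD fin env w acc = true) : ∃ acc', P acc' ∧ fin acc' = true := by
  unfold sumD at h
  obtain ⟨a, h1, h2⟩ := comb_P hP (fun acc => force acc fin) env henv (fun _ _ _ _ => false)
    (fun n w r acc _ h => Bool.noConfusion h) _ _ _ _ h0 h
  exact ⟨a, h1, h2⟩

/-- a header -/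
def okH (h : Hd) : Prop := ∃ r, mkHd r = some h

theorem frcH_eq (h : Hd) (k : Hd → Bool) : frcH h k = k h := by
  cases h
  rfl

theorem getH_spec {own : Nat} {sc : Hd} {w : Nat} {L : List DC} {k : Hd → Nat → Bool} (hsc : okH sc)
    (h : getH own sc w L k = true) : ∃ hd w', okH hd ∧ k hd w' = true := by
  unfold getH at h
  cases own with
  | zero => exact ⟨sc, w, hsc, h⟩
  | succ own =>
    cases L with
    | nil => exact ⟨sc, w, hsc, h⟩
    | cons c L =>
      have h' : @Option.rec Hd (fun _ => Bool) false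
        (fun h => frcH h fun h => force (Nat.shiftRight w 128) fun w => k h w)
        (mkHd (Nat.mul 4 (Nat.mod w P128))) = true := h
      generalize hr : Nat.mul 4 (Nat.mod w P128) = r at h'
      cases hm : mkHd r with
      | none =>
        rw [hm] at h'
        exact Bool.noConfusion h'
      | some hd =>
        rw [hm] at h'
        have h2 : frcH hd (fun h => force (Nat.shiftRight w 128) fun w => k h w) = true := h'
        rw [frcH_eq, force_eq] at h2
        exact ⟨hd, _, ⟨r, hm⟩, h2⟩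

/-- the numbers of a corner -/
structure Num (c : DC) (a : ℕ) : Prop where
  h : okH c.h
  x0 : c.x0 = bl a 0
  x1 : c.x1 = bl a 2560
  x2 : c.x2 = bl a 5120
  y0 : c.y0 = bl a 7680
  y1 : c.y1 = bl a 10240
  y2 : c.y2 = bl a 12800
  ka : c.ka = bl a 15360
  z0 : c.z0 = bl a 17920
  z1 : c.z1 = bl a 20480
  z2 : c.z2 = bl a 23040
  w0 : c.w0 = bl a 25600
  w1 : c.w1 = bl a 28160
  w2 : c.w2 = bl a 30720
  mu : c.mu = bl a 33280

/-- the same with the vertices -/
structure Cr (P Q : ℕ → ℕ → ℕ → List G3) (x₁ x₂ x₃ : ℕ) (c : DC) (a : ℕ) : Prop where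
  n : Num c a
  ps : c.ps = P x₁ x₂ x₃
  qs : c.qs = Q x₁ x₂ x₃

theorem mkC_spec {own : Nat} {sc : Hd} {gs : GS} {P Q : ℕ → ℕ → ℕ → List G3} (hsc : okH sc)
    (hgs : ∀ x₁ x₂ x₃ k, gs x₁ x₂ x₃ k = k (P x₁ x₂ x₃) (Q x₁ x₂ x₃)) {a x₁ x₂ x₃ : Nat} {L : List DC}
    {w : Nat} {k : List DC → Nat → Bool} (h : mkC own sc gs a x₁ x₂ x₃ L w k = true) :
    ∃ c w', Cr P Q x₁ x₂ x₃ c a ∧ k (c :: L) w' = true := by
  unfold mkC at h
  obtain ⟨hd, w', h1, h2⟩ := getH_spec hsc h
  rw [force_eq, force_eq] at h2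
  obtain ⟨D, hD⟩ := Pool.Agent.Helper80.TP.dvK_eq (bl a 15360) (bl a 33280) (fun D =>
    force (bl a 0) fun x0 => force (bl a 2560) fun x1 => force (bl a 5120) fun x2 =>
    force (bl a 7680) fun y0 => force (bl a 10240) fun y1 => force (bl a 12800) fun y2 =>
    force (bl a 17920) fun z0 => force (bl a 20480) fun z1 => force (bl a 23040) fun z2 =>
    force (bl a 25600) fun w0 => force (bl a 28160) fun w1 => force (bl a 30720) fun w2 =>
    gs x₁ x₂ x₃ fun ps qs => k (List.cons (DC.mk hd x0 x1 x2 y0 y1 y2 (bl a 15360) z0 z1 z2 w0 w1 w2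
      (bl a 33280) D ps qs) L) w')
  rw [hD] at h2
  rw [force_eq, force_eq, force_eq, force_eq, force_eq, force_eq, force_eq, force_eq, force_eq,
    force_eq, force_eq, force_eq, hgs] at h2
  exact ⟨_, w', ⟨⟨h1, rfl, rfl, rfl, rfl, rfl, rfl, rfl, rfl, rfl, rfl, rfl, rfl, rfl, rfl⟩, rfl, rfl⟩, h2⟩

/-- one parameter -/
theorem stepD_spec {g d l h A P : ℕ} {body : Nat → Nat → List DC → Nat → (List DC → Nat → Bool) → Bool}
    {G : ℕ → ℕ → List DC → Prop} (hmono : ∀ x a L L', (∀ c ∈ L, c ∈ L') → G x a L → G x a L')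
    (hG : g = 0 → ∀ x y a L, G x a L → G y a L)
    (hbody : ∀ x a L w k, body x a L w k = true → ∃ L' w', (∀ c ∈ L, c ∈ L') ∧ G x a L' ∧ k L' w' = true)
    {L : List DC} {w : Nat} {k : List DC → Nat → Bool} (hs : stepD g d l h A P body L w k = true) :
    ∃ L' w', (∀ c ∈ L, c ∈ L') ∧ (∀ x, x = l ∨ x = h → G x (A + x * P) L') ∧ k L' w' = true := by
  unfold stepD at hs
  cases d with
  | zero =>
    have hs' : @Bool.rec (fun _ => Bool)
      (@Bool.rec (fun _ => Bool) false (body l A L w k) (Nat.beq (Nat.add P g) 0))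
      (force (Nat.add A (Nat.mul l P)) fun a => body l a L w k) (Nat.beq l h) = true := hs
    cases hb : Nat.beq l h with
    | true =>
      rw [hb] at hs'
      have h2 : (force (Nat.add A (Nat.mul l P)) fun a => body l a L w k) = true := hs'
      rw [force_eq] at h2
      have hlh : l = h := Nat.eq_of_beq_eq_true hb
      obtain ⟨L', w', h3, h4, h5⟩ := hbody _ _ _ _ _ h2
      refine ⟨L', w', h3, fun x hx => ?_, h5⟩
      have : x = l := by
        rcases hx with rfl | rfl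
        · rfl
        · exact hlh.symm
      rw [this]
      exact h4
    | false =>
      rw [hb] at hs'
      cases hb2 : Nat.beq (Nat.add P g) 0 with
      | false =>
        rw [hb2] at hs'
        exact Bool.noConfusion (show false = true from hs')
      | true =>
        rw [hb2] at hs'
        have h2 : body l A L w k = true := hs'
        have h3 : P + g = 0 := Nat.eq_of_beq_eq_true hb2
        obtain ⟨hP0, hg0⟩ : P = 0 ∧ g = 0 := by omega
        obtain ⟨L', w', h4, h5, h6⟩ := hbody _ _ _ _ _ h2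
        refine ⟨L', w', h4, fun x _ => ?_, h6⟩
        rw [hP0, Nat.mul_zero, Nat.add_zero]
        exact hG hg0 _ _ _ _ h5
  | succ d =>
    have hs' : (force (Nat.add A (Nat.mul l P)) fun a => body l a L w fun L w =>
      force (Nat.add A (Nat.mul h P)) fun a => body h a L w k) = true := hs
    rw [force_eq] at hs'
    obtain ⟨L1, w1, h1, h2, h3⟩ := hbody _ _ _ _ _ hs'
    rw [force_eq] at h3
    obtain ⟨L2, w2, h4, h5, h6⟩ := hbody _ _ _ _ _ h3
    refine ⟨L2, w2, fun c hc => h4 c (h1 c hc), fun x hx => ?_, h6⟩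
    rcases hx with rfl | rfl
    · exact hmono _ _ _ _ h4 h2
    · exact h5

/-- **the corners of the box** -/
theorem corns_spec {own : Nat} {sc : Hd} {gs : GS} {P Q : ℕ → ℕ → ℕ → List G3} (hsc : okH sc)
    (hgs : ∀ x₁ x₂ x₃ k, gs x₁ x₂ x₃ k = k (P x₁ x₂ x₃) (Q x₁ x₂ x₃)) {g : ℕ}
    (hP : g = 0 → ∀ x₁ x₂ x₃ y₁ y₂ y₃, P x₁ x₂ x₃ = P y₁ y₂ y₃ ∧ Q x₁ x₂ x₃ = Q y₁ y₂ y₃)
    {l₁ h₁ l₂ h₂ l₃ h₃ d₁ d₂ d₃ acc w : Nat} {k : List DC → Nat → Bool}
    (h : corns own sc gs g l₁ h₁ l₂ h₂ l₃ h₃ d₁ d₂ d₃ acc w k = true) :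
    ∃ L w', (∀ x₁ x₂ x₃, (x₁ = l₁ ∨ x₁ = h₁) → (x₂ = l₂ ∨ x₂ = h₂) → (x₃ = l₃ ∨ x₃ = h₃) →
      ∃ c ∈ L, Cr P Q x₁ x₂ x₃ c (atC acc x₁ x₂ x₃)) ∧ k L w' = true := by
  unfold corns at h
  rw [force_eq, force_eq] at h
  obtain ⟨L, w', -, h1, h2⟩ := stepD_spec (G := fun x₃ a L => ∀ x₁ x₂, (x₁ = l₁ ∨ x₁ = h₁) →
    (x₂ = l₂ ∨ x₂ = h₂) → ∃ c ∈ L, Cr P Q x₁ x₂ x₃ c (lo1 (lo2 a + x₂ * hi2 a) + x₁ * hi1 (lo2 a + x₂ * hi2 a)))
    (fun x a L L' hL hG x₁ x₂ hx₁ hx₂ => by
      obtain ⟨c, hc, h1⟩ := hG x₁ x₂ hx₁ hx₂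
      exact ⟨c, hL c hc, h1⟩)
    (fun hg x y a L hG x₁ x₂ hx₁ hx₂ => by
      obtain ⟨c, hc, h1⟩ := hG x₁ x₂ hx₁ hx₂
      exact ⟨c, hc, h1.n, by rw [h1.ps]; exact (hP hg _ _ _ _ _ _).1, by
        rw [h1.qs]; exact (hP hg _ _ _ _ _ _).2⟩)
    (fun x₃ a L w k hb => by
      rw [force_eq, force_eq] at hb
      obtain ⟨L', w', h3, h4, h5⟩ := stepD_spec (G := fun x₂ a L => ∀ x₁, (x₁ = l₁ ∨ x₁ = h₁) →
        ∃ c ∈ L, Cr P Q x₁ x₂ x₃ c (lo1 a + x₁ * hi1 a))
        (fun x a L L' hL hG x₁ hx₁ => by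
          obtain ⟨c, hc, h1⟩ := hG x₁ hx₁
          exact ⟨c, hL c hc, h1⟩)
        (fun hg x y a L hG x₁ hx₁ => by
          obtain ⟨c, hc, h1⟩ := hG x₁ hx₁
          exact ⟨c, hc, h1.n, by rw [h1.ps]; exact (hP hg _ _ _ _ _ _).1, by
            rw [h1.qs]; exact (hP hg _ _ _ _ _ _).2⟩)
        (fun x₂ a L w k hb => by
          rw [force_eq, force_eq] at hb
          obtain ⟨L', w', h3, h4, h5⟩ := stepD_spec (G := fun x₁ a L => ∃ c ∈ L, Cr P Q x₁ x₂ x₃ c a)
            (fun x a L L' hL hG => by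
              obtain ⟨c, hc, h1⟩ := hG
              exact ⟨c, hL c hc, h1⟩)
            (fun hg x y a L hG => by
              obtain ⟨c, hc, h1⟩ := hG
              exact ⟨c, hc, h1.n, by rw [h1.ps]; exact (hP hg _ _ _ _ _ _).1, by
                rw [h1.qs]; exact (hP hg _ _ _ _ _ _).2⟩)
            (fun x₁ a L w k hb => by
              obtain ⟨c, w', h1, h2⟩ := mkC_spec hsc hgs hb
              exact ⟨c :: L, w', fun c hc => List.mem_cons_of_mem _ hc, ⟨c, List.mem_cons_self, h1⟩, h2⟩)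
            hb
          exact ⟨L', w', h3, h4, h5⟩)
        hb
      exact ⟨L', w', h3, fun x₁ x₂ hx₁ hx₂ => h4 x₂ hx₂ x₁ hx₁, h5⟩)
    h
  refine ⟨L, w', fun x₁ x₂ x₃ hx₁ hx₂ hx₃ => ?_, h2⟩
  exact h1 x₃ hx₃ x₁ x₂ hx₁ hx₂

end Pool.Agent.Helper21.KD
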