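import Mathlib
import Pool.Agent.Helper21.KD.LfA

/-!
# The test of the sum
-/

set_option autoImplicit false

namespace Pool.Agent.Helper21.KD

open Finset
open Pool.Agent.Helper80.KD
open Pool.Agent.Helper80.TP (IM RD pr Item force force_eq R9 vI comb bl dvK Seven rowX rowY BB)
open Pool.Agent.Helper82.FL (Hd V DC G3 mkHd Rs Rows B1 Data M3bd)
open Pool.Agent.Helper28.TT (M3)

/-- the test of the sum with any test of the weight -/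
noncomputable def condG (o : Nat → Bool) (own : Nat) (sc : Hd) (gs : GS)
    (g l₁ h₁ l₂ h₂ l₃ h₃ d₁ d₂ d₃ w : Nat) (fin : List DC → Bool) (acc : Nat) : Bool :=
  @Bool.rec (fun _ => Bool) false
    (corns own sc gs g l₁ h₁ l₂ h₂ l₃ h₃ d₁ d₂ d₃ acc w fun L _ => fin L)
    (an (o acc) (an (Nat.ble h₁ 256) (an (Nat.ble h₂ 256) (Nat.ble h₃ 256))))

section

attribute [local irreducible] okD an corns

theorem condD_abs : condD = condG okD := rfl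

end

theorem rec_true {b X : Bool} (h : @Bool.rec (fun _ => Bool) false X b = true) : b = true ∧ X = true := by
  cases b with
  | false => exact Bool.noConfusion (show false = true from h)
  | true => exact ⟨rfl, h⟩

theorem condG_spec {o : Nat → Bool} {own : Nat} {sc : Hd} {gs : GS} {P Q : ℕ → ℕ → ℕ → List G3} (hsc : okH sc)
    (hgs : ∀ x₁ x₂ x₃ k, gs x₁ x₂ x₃ k = k (P x₁ x₂ x₃) (Q x₁ x₂ x₃)) {g : ℕ}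
    (hP : g = 0 → ∀ x₁ x₂ x₃ y₁ y₂ y₃, P x₁ x₂ x₃ = P y₁ y₂ y₃ ∧ Q x₁ x₂ x₃ = Q y₁ y₂ y₃)
    {l₁ h₁ l₂ h₂ l₃ h₃ d₁ d₂ d₃ acc w : Nat} {fin : List DC → Bool}
    (h : condG o own sc gs g l₁ h₁ l₂ h₂ l₃ h₃ d₁ d₂ d₃ w fin acc = true) :
    o acc = true ∧ h₁ ≤ 256 ∧ h₂ ≤ 256 ∧ h₃ ≤ 256 ∧
    ∃ L, (∀ x₁ x₂ x₃, (x₁ = l₁ ∨ x₁ = h₁) → (x₂ = l₂ ∨ x₂ = h₂) → (x₃ = l₃ ∨ x₃ = h₃) →
      ∃ c ∈ L, Cr P Q x₁ x₂ x₃ c (atC acc x₁ x₂ x₃)) ∧ fin L = true := by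
  unfold condG at h
  obtain ⟨hb, h'⟩ := rec_true h
  obtain ⟨c0, hb⟩ := an_true hb
  obtain ⟨c1, hb⟩ := an_true hb
  obtain ⟨c2, c3⟩ := an_true hb
  obtain ⟨L, w', h1, h2⟩ := corns_spec hsc hgs hP h'
  exact ⟨c0, Nat.le_of_ble_eq_true c1, Nat.le_of_ble_eq_true c2, Nat.le_of_ble_eq_true c3, L, h1, h2⟩

/-- the test of the sum -/
theorem condD_spec {own : Nat} {sc : Hd} {gs : GS} {P Q : ℕ → ℕ → ℕ → List G3} (hsc : okH sc)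
    (hgs : ∀ x₁ x₂ x₃ k, gs x₁ x₂ x₃ k = k (P x₁ x₂ x₃) (Q x₁ x₂ x₃)) {g : ℕ}
    (hP : g = 0 → ∀ x₁ x₂ x₃ y₁ y₂ y₃, P x₁ x₂ x₃ = P y₁ y₂ y₃ ∧ Q x₁ x₂ x₃ = Q y₁ y₂ y₃)
    {l₁ h₁ l₂ h₂ l₃ h₃ d₁ d₂ d₃ acc w : Nat} {fin : List DC → Bool}
    (h : condD own sc gs g l₁ h₁ l₂ h₂ l₃ h₃ d₁ d₂ d₃ w fin acc = true) :
    okD acc = true ∧ h₁ ≤ 256 ∧ h₂ ≤ 256 ∧ h₃ ≤ 256 ∧
    ∃ L, (∀ x₁ x₂ x₃, (x₁ = l₁ ∨ x₁ = h₁) → (x₂ = l₂ ∨ x₂ = h₂) → (x₃ = l₃ ∨ x₃ = h₃) →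
      ∃ c ∈ L, Cr P Q x₁ x₂ x₃ c (atC acc x₁ x₂ x₃)) ∧ fin L = true := by
  rw [condD_abs] at h
  exact condG_spec hsc hgs hP h

end Pool.Agent.Helper21.KD
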