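import Mathlib
import Pool.Agent.Helper80.KD.Tag
import Pool.Agent.Helper21.KD.Grp

/-!
# The width fact of a group
-/

set_option autoImplicit false

namespace Pool.Agent.Helper21.KD

open Pool.Agent.Helper80.KD
open Pool.Agent.Helper80.TP (IM RD pr R9 vI)
open Pool.Agent.Helper80.TK (VP yv KR dd)
open Pool.Agent.Helper21.TK (HT vt mt)

section

variable {W : ℝ} {E : RD} {cls : Fin 3 → Bool} {d c s : Fin 3 → ℝ} {h : ℝ} {lab : (Fin 3 → ℤ) → Fin 5}

theorem tX_dd (H : HS W E cls d c s h lab) (i : Fin 4) : tX (E.c 0) (E.c 1) (E.c 2) i = dd d i := by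
  rw [H.e0, H.e1, H.e2]
  fin_cases i <;> rfl

/-- **the fact of a group** -/
theorem grp_fact (H : HS W E cls d c s h lab) (_hW : 0 ≤ W) {cu e f : ℕ}
    (hT : HT W cls d (fun w => yv E.G w (pt cu)) e f) (he : e < 16) (hf : f < 16) :
    ∃ i t j t' : Fin 4, (i = 0 → t = 0) ∧ (j = 0 → t' = 0) ∧
      (i.val + 4 * t.val) ∈ (vt (cls 0) (cls 1) (cls 2)).getD e [] ∧
      (j.val + 4 * t'.val) ∈ (vt (cls 0) (cls 1) (cls 2)).getD f [] ∧
      E.om * ev (fun m => ((mo 0 m * 256 : ℤ) : ℝ)) (256 * E.c 0) (256 * E.c 1) (256 * E.c 2) ≤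
        ev (fun m => pr E.G (wX i t j t' (pt cu) m)) (256 * E.c 0) (256 * E.c 1) (256 * E.c 2) := by
  obtain ⟨i, j, a, b, hv, m1, m2⟩ := hT.group he hf
  obtain ⟨hadm, y1, y2, y3⟩ := hv
  obtain ⟨-, q1, -, q3, -, -⟩ := hadm
  refine ⟨i, a, j, b, q1, q3, m1, m2, ?_⟩
  refine (sd_wC (vr_vu cu) (pt_bd' cu) i a j b q1 q3 ?_).hM
  rw [tX_dd H, tX_dd H, H.om]
  simp only at y3
  linarith

/-- all vertices -/
theorem hT_of_cu (H : HS W E cls d c s h lab) (hW : 0 ≤ W) {cu : ℕ} (hc : cu < 4096) (hne : cu ≠ 2184) :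
    HT W cls d (fun w => yv E.G w (pt cu)) 4 4 := by
  obtain ⟨i, j, a, b, hv⟩ := H.K.wt hW (pt cu) (fun h0 => hne (pt_zero_iff hc h0))
  exact ⟨i, j, a, b, hv, Or.inl rfl, Or.inl rfl⟩

/-- the sets of a tag -/
theorem hT_of_tag {n : ℕ} (hn : TagOK W E.G cls d lab n) (h1 : n % 2 = 1) :
    HT W cls d (fun w => yv E.G w (pt (Nat.shiftRight n 9))) (Nat.mod (Nat.shiftRight n 1) 16)
      (Nat.mod (Nat.shiftRight n 5) 16) := by
  have e1 : Nat.shiftRight n 9 = n / 512 := Nat.shiftRight_eq_div_pow n 9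
  have e2 : Nat.mod (Nat.shiftRight n 1) 16 = n / 2 % 16 := by
    rw [show Nat.shiftRight n 1 = n / 2 from Nat.shiftRight_eq_div_pow n 1]; rfl
  have e3 : Nat.mod (Nat.shiftRight n 5) 16 = n / 32 % 16 := by
    rw [show Nat.shiftRight n 5 = n / 32 from Nat.shiftRight_eq_div_pow n 5]; rfl
  rw [e1, e2, e3]
  exact HT_of_tag hn h1

/-- the numbers of the sets are small -/
theorem tag_lt (n k : ℕ) : Nat.mod (Nat.shiftRight n k) 16 < 16 := Nat.mod_lt _ (by norm_num)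

end

end Pool.Agent.Helper21.KD
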