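import Mathlib
import Pool.Agent.Helper21.KD.CondG
import Pool.Agent.Helper21.KD.Grp2

/-!
# The leaf is correct
-/

set_option autoImplicit false

namespace Pool.Agent.Helper21.KD

open Finset Matrix
open Pool.Agent.Helper28.TP (Ivl InBox nth Task Geo)
open Pool.Agent.Helper80.KD
open Pool.Agent.Helper80.TP (IM RD pr pr_trace Item force force_eq R9 vI bl Seven rowX rowY BB Small Hit nthK
  nthK_eq)
open Pool.Agent.Helper80.TK (VP yv KR dd kM)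
open Pool.Agent.Helper82.FL (Hd V DC G3 mkHd Rs Rows B1 Data M3bd smG chM fleafJ fmrgJ okV formV AtV sigJ
  fleafJ_sound fmrgJ_sound)
open Pool.Agent.Helper28.TT (M3)
open Pool.Agent.Helper21.TK (HT vt mt)

theorem BB_B1 : (BB : ℤ) = (B1 : ℤ) := rfl

theorem R9_B1' : (R9 : ℤ) = (B1 : ℤ) ^ 9 := by
  have := R9_B1
  exact_mod_cast this

theorem rows_of {e : ℕ → ℕ} {X : IM} {k : ℤ} (h : Seven e 0 X k) :
    Rows (m3 X) (e 0) (e 1) (e 2) (e 3) (e 4) (e 5) ∧ Rs (e 6) k := by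
  have hx : ∀ i : Fin 3, rowX X i = X i 0 + X i 1 * (B1 : ℤ) + X i 2 * (B1 : ℤ) ^ 2 := by
    intro i
    rw [← BB_B1]
    simp [rowX, Fin.sum_univ_three]
  have hy : ∀ i : Fin 3, rowY X i = X i 0 + X i 1 * (B1 : ℤ) ^ 3 + X i 2 * (B1 : ℤ) ^ 6 := by
    intro i
    rw [← BB_B1]
    simp [rowY, Fin.sum_univ_three]
  have h1 := h.x
  have h2 := h.y
  have h3 := h.k
  simp only [hx, R9_B1'] at h1
  simp only [hy, R9_B1'] at h2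
  rw [R9_B1'] at h3
  exact ⟨⟨h1 0, h1 1, h1 2, h2 0, h2 1, h2 2⟩, h3⟩

theorem m3_bd {X : IM} {Y : ℤ} (h : ∀ i j, |X i j| ≤ Y) : M3bd (m3 X) Y :=
  ⟨h 0 0, h 0 1, h 0 2, h 1 0, h 1 1, h 1 2, h 2 0, h 2 1, h 2 2⟩

theorem m3_toM (X : IM) : (m3 X).toM = Matrix.of fun i j => (X i j : ℝ) := by
  ext i j
  fin_cases i <;> fin_cases j <;> rfl

theorem pr_m3 (G : Matrix (Fin 3) (Fin 3) ℝ) (X : IM) : trace (Gᵀ * (m3 X).toM) = pr G X := by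
  rw [pr_trace, m3_toM]

/-- the data at a corner -/
theorem data_of {acc W : ℕ} {C : ℕ → IM} {k : ℕ → ℤ} {M : ℕ → IM} {u : ℕ → ℤ} (h : RP acc W C k M u)
    (hW : okD acc = true) {x₁ x₂ x₃ : ℕ} (h₁ : x₁ ≤ 256) (h₂ : x₂ ≤ 256) (h₃ : x₃ ≤ 256) {c : DC}
    (hc : Num c (atC acc x₁ x₂ x₃)) :
    Data (m3 (evI C x₁ x₂ x₃)) (m3 (evI M x₁ x₂ x₃)) (ev k x₁ x₂ x₃) (ev u x₁ x₂ x₃) c.x0 c.x1 c.x2 c.y0
      c.y1 c.y2 c.ka c.z0 c.z1 c.z2 c.w0 c.w1 c.w2 c.mu := by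
  obtain ⟨s1, s2⟩ := h.corner hW h₁ h₂ h₃
  obtain ⟨b1, b2, b3, b4⟩ := h.small hW h₁ h₂ h₃
  obtain ⟨r1, r2⟩ := rows_of s1
  obtain ⟨r3, r4⟩ := rows_of s2
  rw [hc.x0, hc.x1, hc.x2, hc.y0, hc.y1, hc.y2, hc.ka, hc.z0, hc.z1, hc.z2, hc.w0, hc.w1, hc.w2, hc.mu]
  refine ⟨r1, r3, m3_bd b1, m3_bd fun i j => (b3 i j).trans (by norm_num), r2, r4, b2.trans (by norm_num),
    b4.trans (by norm_num)⟩

/-- the tests at the corners contradict the inequalities -/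
theorem not_hit_of {E : RD} {C : ℕ → IM} {k : ℕ → ℤ} {M : ℕ → IM} {u : ℕ → ℤ}
    (hC : ev (fun m => (k m : ℝ)) (256 * E.c 0) (256 * E.c 1) (256 * E.c 2) ≤
      ev (fun m => pr E.F (C m)) (256 * E.c 0) (256 * E.c 1) (256 * E.c 2))
    (hM : E.om * ev (fun m => (u m : ℝ)) (256 * E.c 0) (256 * E.c 1) (256 * E.c 2) ≤
      ev (fun m => pr E.G (M m)) (256 * E.c 0) (256 * E.c 1) (256 * E.c 2)) {σ : ℝ} (hσ : 0 < σ)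
    {l₁ r₁ l₂ r₂ l₃ r₃ : ℕ}
    (a₁ : (l₁ : ℝ) ≤ 256 * E.c 0) (b₁ : 256 * E.c 0 ≤ r₁) (a₂ : (l₂ : ℝ) ≤ 256 * E.c 1)
    (b₂ : 256 * E.c 1 ≤ r₂) (a₃ : (l₃ : ℝ) ≤ 256 * E.c 2) (b₃ : 256 * E.c 2 ≤ r₃)
    (hh : ∀ x₁ x₂ x₃ : ℕ, (x₁ = l₁ ∨ x₁ = r₁) → (x₂ = l₂ ∨ x₂ = r₂) → (x₃ = l₃ ∨ x₃ = r₃) →
      Hit E σ (evI C x₁ x₂ x₃) (ev k x₁ x₂ x₃) (evI M x₁ x₂ x₃) (ev u x₁ x₂ x₃)) : False := by
  obtain ⟨c, hc⟩ : ∃ c : ℕ → ℝ, c = fun m => (pr E.F (C m) + σ * pr E.G (M m)) -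
      ((k m : ℝ) + σ * (E.om * u m)) := ⟨_, rfl⟩
  have e : ∀ x₁ x₂ x₃ : ℝ, ev c x₁ x₂ x₃ = (ev (fun m => pr E.F (C m)) x₁ x₂ x₃ +
      σ * ev (fun m => pr E.G (M m)) x₁ x₂ x₃) - (ev (fun m => (k m : ℝ)) x₁ x₂ x₃ +
      σ * (E.om * ev (fun m => (u m : ℝ)) x₁ x₂ x₃)) := by
    intro x₁ x₂ x₃
    rw [hc]
    unfold ev
    ring
  have hneg : ev c (256 * E.c 0) (256 * E.c 1) (256 * E.c 2) < 0 := by
    refine ev_neg a₁ b₁ a₂ b₂ a₃ b₃ ?_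
    have hx : ∀ x₁ x₂ x₃ : ℕ, (x₁ = l₁ ∨ x₁ = r₁) → (x₂ = l₂ ∨ x₂ = r₂) → (x₃ = l₃ ∨ x₃ = r₃) →
        ev c (x₁ : ℝ) x₂ x₃ < 0 := by
      intro x₁ x₂ x₃ h1 h2 h3
      have h4 := hh x₁ x₂ x₃ h1 h2 h3
      unfold Hit at h4
      rw [pr_evI, pr_evI, ev_cast, ev_cast] at h4
      rw [e]
      push_cast at h4
      linarith
    rintro x₁ x₂ x₃ (rfl | rfl) (rfl | rfl) (rfl | rfl)
    · exact hx _ _ _ (Or.inl rfl) (Or.inl rfl) (Or.inl rfl)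
    · exact hx _ _ _ (Or.inl rfl) (Or.inl rfl) (Or.inr rfl)
    · exact hx _ _ _ (Or.inl rfl) (Or.inr rfl) (Or.inl rfl)
    · exact hx _ _ _ (Or.inl rfl) (Or.inr rfl) (Or.inr rfl)
    · exact hx _ _ _ (Or.inr rfl) (Or.inl rfl) (Or.inl rfl)
    · exact hx _ _ _ (Or.inr rfl) (Or.inl rfl) (Or.inr rfl)
    · exact hx _ _ _ (Or.inr rfl) (Or.inr rfl) (Or.inl rfl)
    · exact hx _ _ _ (Or.inr rfl) (Or.inr rfl) (Or.inr rfl)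
  rw [e] at hneg
  have h2 := mul_le_mul_of_nonneg_left hM hσ.le
  linarith

section

variable {W : ℝ} {E : RD} {cls : Fin 3 → Bool} {d c s : Fin 3 → ℝ} {h : ℝ} {lab : (Fin 3 → ℤ) → Fin 5}
  {Z : Matrix (Fin 3) (Fin 3) ℝ} {cs : List V} {lam : ℕ → ℝ} {env : List Item}

/-- the true facts -/
theorem plain_false (hZ : (E.Fᵀ * E.F) * Z = 1) (hG : E.G = E.F * Z) (hom : E.om = 1154 / 169)
    (hok : ∀ v ∈ cs, okV v) (hlam : ∀ k, 0 ≤ lam k)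
    (hQ : E.Fᵀ * E.F = ∑ k ∈ range cs.length, lam k • AtV cs k) {sc : Hd} (hsc : okH sc)
    (henv : ∀ N, Item.f N ∈ env → IsD E N) {own : ℕ} {l₁ h₁ l₂ h₂ l₃ h₃ d₁ d₂ d₃ w₀ w : ℕ}
    (a₁ : (l₁ : ℝ) ≤ 256 * E.c 0) (b₁ : 256 * E.c 0 ≤ h₁) (a₂ : (l₂ : ℝ) ≤ 256 * E.c 1)
    (b₂ : 256 * E.c 1 ≤ h₂) (a₃ : (l₃ : ℝ) ≤ 256 * E.c 2) (b₃ : 256 * E.c 2 ≤ h₃)
    (hf : sumD (condD own sc (fun _ _ _ k => k [] []) 0 l₁ h₁ l₂ h₂ l₃ h₃ d₁ d₂ d₃ w₀ (fleafJ cs sc)) env w 0 =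
      true) : False := by
  obtain ⟨acc, ⟨W', C, k, M, u, hS⟩, h1⟩ := sumD_P (T := IsD E)
    (P := fun acc => ∃ W C k M u, SD E acc W C k M u)
    (fun acc w N hA hN => by
      obtain ⟨W, C, k, M, u, h1⟩ := hA
      obtain ⟨D, l, L, v, h2⟩ := hN
      exact ⟨_, _, _, _, _, h1.comb w h2⟩)
    henv ⟨_, _, _, _, _, sd_zero E⟩ hf
  obtain ⟨h2, h3, h4, h5, L, h6, h7⟩ := condD_spec (P := fun _ _ _ => []) (Q := fun _ _ _ => []) hsc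
    (fun _ _ _ _ => rfl) (fun _ _ _ _ _ _ _ => ⟨rfl, rfl⟩) h1
  have le1 : l₁ ≤ h₁ := by exact_mod_cast a₁.trans b₁
  have le2 : l₂ ≤ h₂ := by exact_mod_cast a₂.trans b₂
  have le3 : l₃ ≤ h₃ := by exact_mod_cast a₃.trans b₃
  obtain ⟨r0, hr0⟩ := hsc
  have key : ∀ x₁ x₂ x₃ : ℕ, (x₁ = l₁ ∨ x₁ = h₁) → (x₂ = l₂ ∨ x₂ = h₂) → (x₃ = l₃ ∨ x₃ = h₃) →
      0 < sigJ sc cs lam ∧
      Hit E (sigJ sc cs lam) (evI C x₁ x₂ x₃) (ev k x₁ x₂ x₃) (evI M x₁ x₂ x₃) (ev u x₁ x₂ x₃) := by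
    intro x₁ x₂ x₃ hx₁ hx₂ hx₃
    have q1 : x₁ ≤ 256 := by rcases hx₁ with rfl | rfl <;> omega
    have q2 : x₂ ≤ 256 := by rcases hx₂ with rfl | rfl <;> omega
    have q3 : x₃ ≤ 256 := by rcases hx₃ with rfl | rfl <;> omega
    obtain ⟨c, hc, hcr⟩ := h6 x₁ x₂ x₃ hx₁ hx₂ hx₃
    obtain ⟨r, hr⟩ := hcr.n.h
    have := fleafJ_sound E.F Z hZ cs hok lam hlam hQ sc r0 hr0 L h7 c hc r hr _ _ _ _
      (data_of hS.r h2 q1 q2 q3 hcr.n)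
    rw [pr_m3, pr_m3, ← hG, ← hom] at this
    exact this
  exact not_hit_of hS.hC hS.hM (key l₁ l₂ l₃ (Or.inl rfl) (Or.inl rfl) (Or.inl rfl)).1 a₁ b₁ a₂ b₂ a₃ b₃
    fun x₁ x₂ x₃ hx₁ hx₂ hx₃ => (key x₁ x₂ x₃ hx₁ hx₂ hx₃).2

theorem ev_m0 (x₁ x₂ x₃ : ℤ) : ev (fun m => mo 0 m * 256) x₁ x₂ x₃ = 256 := by
  have h1 : ((ev (fun m => mo 0 m * 256) x₁ x₂ x₃ : ℤ) : ℝ) = ((256 : ℤ) : ℝ) := by
    rw [ev_cast]
    simp [ev, mo]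
  exact_mod_cast h1

/-- the right side of a group -/
theorem rp_kM : RP (oneD (kM 256)) 1 (fun _ _ _ => 0) (fun _ => 0) (fun _ _ _ => 0) (fun m => mo 0 m * 256) := by
  refine pd_kM.rp (by norm_num) ?_
  intro x₁ x₂ x₃ _ _ _
  have hz : ∀ a b c : ℤ, ev (fun _ => (0 : ℤ)) a b c = 0 := fun a b c => ev_zero a b c
  refine ⟨fun r k => ?_, ?_, fun r k => ?_, ?_⟩
  · have : evI (fun _ _ _ => (0 : ℤ)) (x₁ : ℤ) x₂ x₃ r k = 0 := hz _ _ _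
    rw [this]
    norm_num
  · rw [hz]
    norm_num
  · have : evI (fun _ _ _ => (0 : ℤ)) (x₁ : ℤ) x₂ x₃ r k = 0 := hz _ _ _
    rw [this]
    norm_num
  · rw [ev_m0]
    norm_num

/-- the sum of a group without its vertices -/
def PG (E : RD) (z : ℕ) (X : ℕ → IM) (acc : ℕ) : Prop :=
  ∃ (W : ℕ) (C : ℕ → IM) (k : ℕ → ℤ) (M : ℕ → IM) (u : ℕ → ℤ), RP acc W C k M u ∧
    ev (fun m => (k m : ℝ)) (256 * E.c 0) (256 * E.c 1) (256 * E.c 2) ≤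
      ev (fun m => pr E.F (C m)) (256 * E.c 0) (256 * E.c 1) (256 * E.c 2) ∧
    E.om * ev (fun m => (u m : ℝ)) (256 * E.c 0) (256 * E.c 1) (256 * E.c 2) ≤
      ev (fun m => pr E.G (M m)) (256 * E.c 0) (256 * E.c 1) (256 * E.c 2) +
      z * ev (fun m => pr E.G (X m)) (256 * E.c 0) (256 * E.c 1) (256 * E.c 2)

theorem PG.comb {z : ℕ} {X : ℕ → IM} {acc N : ℕ} (w : ℕ) (h : PG E z X acc) (hN : IsD E N) :
    PG E z X (acc + w * N) := by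
  obtain ⟨W, C, k, M, u, h1, h2, h3⟩ := h
  obtain ⟨D, l, L, v, g⟩ := hN
  have hw : (0 : ℝ) ≤ w := Nat.cast_nonneg _
  refine ⟨_, _, _, _, _, h1.comb w g.r, ?_, ?_⟩
  · have h2' := mul_le_mul_of_nonneg_left g.hC hw
    simp only [pr_comb]
    rw [ev_comb]
    push_cast
    rw [ev_comb]
    linarith
  · have h2' := mul_le_mul_of_nonneg_left g.hM hw
    simp only [pr_comb]
    rw [ev_comb]
    push_cast
    rw [ev_comb]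
    nlinarith

theorem PG.start {z : ℕ} {X : ℕ → IM}
    (hX : E.om * ev (fun m => ((mo 0 m * 256 : ℤ) : ℝ)) (256 * E.c 0) (256 * E.c 1) (256 * E.c 2) ≤
      ev (fun m => pr E.G (X m)) (256 * E.c 0) (256 * E.c 1) (256 * E.c 2)) :
    PG E z X (z * oneD (kM 256)) := by
  have hz : (0 : ℝ) ≤ z := Nat.cast_nonneg _
  have h1 := (sd_zero E).r.comb z rp_kM
  rw [Nat.zero_add] at h1
  refine ⟨_, _, _, _, _, h1, ?_, ?_⟩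
  · have e1 : ∀ G : Matrix (Fin 3) (Fin 3) ℝ, pr G (fun _ _ => (0 : ℤ) + (z : ℤ) * 0) = 0 := by
      intro G
      simp [pr]
    simp only [e1]
    simp [ev]
  · have e1 : ∀ G : Matrix (Fin 3) (Fin 3) ℝ, pr G (fun _ _ => (0 : ℤ) + (z : ℤ) * 0) = 0 := by
      intro G
      simp [pr]
    simp only [e1]
    rw [ev_zero, zero_add]
    have h2 := mul_le_mul_of_nonneg_left hX hz
    have e2 : ev (fun m => (((0 : ℤ) + (z : ℤ) * (mo 0 m * 256) : ℤ) : ℝ)) (256 * E.c 0) (256 * E.c 1) (256 * E.c 2) =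
        z * ev (fun m => ((mo 0 m * 256 : ℤ) : ℝ)) (256 * E.c 0) (256 * E.c 1) (256 * E.c 2) := by
      unfold ev
      push_cast
      ring
    rw [e2]
    linarith

/-- **a group** -/
theorem group_false (H : HS W E cls d c s h lab) (hW : 0 ≤ W) (hZ : (E.Fᵀ * E.F) * Z = 1)
    (hG : E.G = E.F * Z) (hom : E.om = 1154 / 169)
    (hok : ∀ v ∈ cs, okV v) (hlam : ∀ k, 0 ≤ lam k)
    (hQ : E.Fᵀ * E.F = ∑ k ∈ range cs.length, lam k • AtV cs k) {sc : Hd} (hsc : okH sc)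
    (henv : ∀ N, Item.f N ∈ env → IsD E N) {own : ℕ} {l₁ h₁ l₂ h₂ l₃ h₃ d₁ d₂ d₃ w₀ w cu z : ℕ}
    (a₁ : (l₁ : ℝ) ≤ 256 * E.c 0) (b₁ : 256 * E.c 0 ≤ h₁) (a₂ : (l₂ : ℝ) ≤ 256 * E.c 1)
    (b₂ : 256 * E.c 1 ≤ h₂) (a₃ : (l₃ : ℝ) ≤ 256 * E.c 2) (b₃ : 256 * E.c 2 ≤ h₃)
    {e f : ℕ} (hT : HT W cls d (fun w => yv E.G w (pt cu)) e f) (he : e < 16) (hf : f < 16)
    (hz : z ≤ 2 ^ 16) {gs : GS} {lp lq : List ℕ}
    (hlp : lp = (vt (cls 0) (cls 1) (cls 2)).getD e []) (hlq : lq = (vt (cls 0) (cls 1) (cls 2)).getD f [])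
    (hgs : ∀ x₁ x₂ x₃ k, gs x₁ x₂ x₃ k = k (lp.map (vG z x₁ x₂ x₃)) (lq.map (vG z x₁ x₂ x₃)))
    (hd : grpD cs env own sc l₁ h₁ l₂ h₂ l₃ h₃ d₁ d₂ d₃ w₀ cu z w gs = true) : False := by
  obtain ⟨i, t, j, t', h0, h0', m1, m2, hX⟩ := grp_fact H hW hT he hf
  unfold grpD at hd
  rw [force_eq, force_eq, force_eq, force_eq] at hd
  obtain ⟨acc, ⟨W', C, k, M, u, hR, hC, hM⟩, h1⟩ := sumD_P (T := IsD E) (P := PG E z (wX i t j t' (pt cu)))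
    (fun acc w N hA hN => hA.comb w hN) henv (PG.start hX) hd
  obtain ⟨h2, h3, h4, h5, L, h6, h7⟩ := condD_spec (P := fun x₁ x₂ x₃ => lp.map (vG z x₁ x₂ x₃))
    (Q := fun x₁ x₂ x₃ => lq.map (vG z x₁ x₂ x₃)) hsc hgs (fun h => absurd h (by norm_num)) h1
  have le1 : l₁ ≤ h₁ := by exact_mod_cast a₁.trans b₁
  have le2 : l₂ ≤ h₂ := by exact_mod_cast a₂.trans b₂
  have le3 : l₃ ≤ h₃ := by exact_mod_cast a₃.trans b₃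
  obtain ⟨r0, hr0⟩ := hsc
  obtain ⟨u0, u1, u2, ub⟩ := um_ok cu
  have ub' : ∀ i, |pt cu i| ≤ 2 ^ 56 := fun i => (ub i).trans (by norm_num)
  have key : ∀ x₁ x₂ x₃ : ℕ, (x₁ = l₁ ∨ x₁ = h₁) → (x₂ = l₂ ∨ x₂ = h₂) → (x₃ = l₃ ∨ x₃ = h₃) →
      0 < sigJ sc cs lam ∧
      Hit E (sigJ sc cs lam) (evI C x₁ x₂ x₃) (ev k x₁ x₂ x₃)
        (evI (fun m r q => M m r q + z * wX i t j t' (pt cu) m r q) x₁ x₂ x₃) (ev u x₁ x₂ x₃) := by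
    intro x₁ x₂ x₃ hx₁ hx₂ hx₃
    have q1 : x₁ ≤ 256 := by rcases hx₁ with rfl | rfl <;> omega
    have q2 : x₂ ≤ 256 := by rcases hx₂ with rfl | rfl <;> omega
    have q3 : x₃ ≤ 256 := by rcases hx₃ with rfl | rfl <;> omega
    obtain ⟨c, hc, hcr⟩ := h6 x₁ x₂ x₃ hx₁ hx₂ hx₃
    obtain ⟨r, hr⟩ := hcr.n.h
    have hps : ∀ g ∈ c.ps, smG g := by
      rw [hcr.ps]
      intro g hg
      obtain ⟨v, -, rfl⟩ := List.mem_map.1 hg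
      exact vG_small hz q1 q2 q3 v
    have hqs : ∀ g ∈ c.qs, smG g := by
      rw [hcr.qs]
      intro g hg
      obtain ⟨v, -, rfl⟩ := List.mem_map.1 hg
      exact vG_small hz q1 q2 q3 v
    have ha : vG z x₁ x₂ x₃ (i.val + 4 * t.val) ∈ c.ps := by
      rw [hcr.ps, hlp]
      exact List.mem_map_of_mem m1
    have hb : vG z x₁ x₂ x₃ (j.val + 4 * t'.val) ∈ c.qs := by
      rw [hcr.qs, hlq]
      exact List.mem_map_of_mem m2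
    have := fmrgJ_sound E.F Z hZ cs hok lam hlam hQ sc r0 hr0 _ _ _ (pt cu 0) (pt cu 1) (pt cu 2) u0 u1 u2
      (ub' 0) (ub' 1) (ub' 2) L h7 c hc r hr _ _ _ _ (data_of hR h2 q1 q2 q3 hcr.n) hps hqs _ _ ha hb
    rw [chM_eq _ z x₁ x₂ x₃ q1 q2 q3 i t j t' h0 h0' (pt cu), pr_m3, pr_m3, ← hG, ← hom] at this
    have e1 : (evI (fun m r q => M m r q + z * wX i t j t' (pt cu) m r q) x₁ x₂ x₃) =
        fun r q => evI M x₁ x₂ x₃ r q + z * evI (wX i t j t' (pt cu)) x₁ x₂ x₃ r q := by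
      funext r q
      exact ev_comb _ _ _ _ _ _
    rw [e1]
    exact this
  refine not_hit_of hC ?_ (key l₁ l₂ l₃ (Or.inl rfl) (Or.inl rfl) (Or.inl rfl)).1 a₁ b₁ a₂ b₂ a₃ b₃
    fun x₁ x₂ x₃ hx₁ hx₂ hx₃ => (key x₁ x₂ x₃ hx₁ hx₂ hx₃).2
  simp only [pr_comb]
  rw [ev_comb]
  exact hM

end

end Pool.Agent.Helper21.KD
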