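import Mathlib
import Pool.Agent.Helper21.KD.LfB

/-!
# The leaf is correct
-/

set_option autoImplicit false

namespace Pool.Agent.Helper21.KD

open Finset Matrix
open Pool.Agent.Helper28.TP (Ivl InBox nth Task Geo)
open Pool.Agent.Helper80.KD
open Pool.Agent.Helper80.TP (IM RD pr Item force force_eq R9 vI nthK nthK_eq)
open Pool.Agent.Helper80.TK (VP yv KR dd kM nup nup_ge)
open Pool.Agent.Helper82.FL (Hd V DC G3 mkHd fleafJ fmrgJ okV formV AtV)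
open Pool.Agent.Helper21.TK (HT vt mt)

section

variable {W : ℝ} {E : RD} {cls : Fin 3 → Bool} {d c s : Fin 3 → ℝ} {h : ℝ} {lab : (Fin 3 → ℤ) → Fin 5}
  {Z : Matrix (Fin 3) (Fin 3) ℝ} {cs : List V} {lam : ℕ → ℝ} {env : List Item}

/-- everything about a task except its sum -/
structure Ctx (W : ℝ) (E : RD) (cls : Fin 3 → Bool) (d c s : Fin 3 → ℝ) (h : ℝ)
    (lab : (Fin 3 → ℤ) → Fin 5) (Z : Matrix (Fin 3) (Fin 3) ℝ) (cs : List V) (lam : ℕ → ℝ)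
    (env : List Item) : Prop where
  H : HS W E cls d c s h lab
  W0 : 0 ≤ W
  Z1 : (E.Fᵀ * E.F) * Z = 1
  G : E.G = E.F * Z
  om : E.om = 1154 / 169
  ok : ∀ v ∈ cs, okV v
  lam0 : ∀ k, 0 ≤ lam k
  Q : E.Fᵀ * E.F = ∑ k ∈ range cs.length, lam k • AtV cs k
  env : ∀ i ∈ env, okI W E cls d lab i

/-- the box contains the parameters -/
structure Bx (E : RD) (l₁ h₁ l₂ h₂ l₃ h₃ : ℕ) : Prop where
  a₁ : (l₁ : ℝ) ≤ 256 * E.c 0
  b₁ : 256 * E.c 0 ≤ h₁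
  a₂ : (l₂ : ℝ) ≤ 256 * E.c 1
  b₂ : 256 * E.c 1 ≤ h₂
  a₃ : (l₃ : ℝ) ≤ 256 * E.c 2
  b₃ : 256 * E.c 2 ≤ h₃

theorem Ctx.facts (X : Ctx W E cls d c s h lab Z cs lam env) : ∀ N, Item.f N ∈ env → IsD E N :=
  fun _ hN => X.env _ hN

theorem grpW_false (X : Ctx W E cls d c s h lab Z cs lam env) {l₁ h₁ l₂ h₂ l₃ h₃ : ℕ}
    (B : Bx E l₁ h₁ l₂ h₂ l₃ h₃) {sc : Hd} (hsc : okH sc) {own d₁ d₂ d₃ w₀ w : ℕ}
    (hf : grpW (vt (cls 0) (cls 1) (cls 2)) cs env own sc l₁ h₁ l₂ h₂ l₃ h₃ d₁ d₂ d₃ w₀ w = true) : False := by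
  unfold grpW at hf
  rw [force_eq, force_eq] at hf
  obtain ⟨cu, hcu⟩ : ∃ cu, cu = Nat.mod w 4096 := ⟨_, rfl⟩
  obtain ⟨z, hzz⟩ : ∃ z, z = Nat.mod (Nat.shiftRight w 12) 8192 := ⟨_, rfl⟩
  obtain ⟨w', hw'⟩ : ∃ w', w' = Nat.shiftRight w 25 := ⟨_, rfl⟩
  rw [← hcu, ← hzz, ← hw'] at hf
  have hc : cu < 4096 := by rw [hcu]; exact Nat.mod_lt _ (by norm_num)
  have hz : z < 8192 := by rw [hzz]; exact Nat.mod_lt _ (by norm_num)
  clear hcu hzz hw'
  cases hb : Nat.beq cu 2184 with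
  | true =>
    rw [hb] at hf
    exact Bool.noConfusion (show false = true from hf)
  | false =>
    rw [hb] at hf
    have hne : cu ≠ 2184 := Nat.ne_of_beq_eq_false hb
    have hf' : nthK (vt (cls 0) (cls 1) (cls 2)) 4 (fun l =>
      grpD cs env own sc l₁ h₁ l₂ h₂ l₃ h₃ d₁ d₂ d₃ w₀ cu z w'
        (fun x₁ x₂ x₃ k => vts z x₁ x₂ x₃ l fun ps => k ps ps)) false = true := hf
    rw [nthK_eq] at hf'
    cases hn : nth (vt (cls 0) (cls 1) (cls 2)) 4 with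
    | none =>
      rw [hn] at hf'
      exact Bool.noConfusion hf'
    | some l =>
      rw [hn] at hf'
      obtain ⟨hlt, hl⟩ := nth_lt hn
      have hl' : l = (vt (cls 0) (cls 1) (cls 2)).getD 4 [] := by
        rw [getD_eq hlt [] l]
        exact hl
      exact group_false X.H X.W0 X.Z1 X.G X.om X.ok X.lam0 X.Q hsc X.facts B.a₁ B.b₁ B.a₂ B.b₂ B.a₃ B.b₃
        (hT_of_cu X.H X.W0 hc hne) (by norm_num) (by norm_num) (by omega) hl' hl'
        (fun x₁ x₂ x₃ k => by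
          show vts z x₁ x₂ x₃ l (fun ps => k ps ps) = _
          rw [vts_eq]) hf'

theorem grpV_false (X : Ctx W E cls d c s h lab Z cs lam env) {l₁ h₁ l₂ h₂ l₃ h₃ : ℕ}
    (B : Bx E l₁ h₁ l₂ h₂ l₃ h₃) {sc : Hd} (hsc : okH sc) {own d₁ d₂ d₃ w₀ w : ℕ}
    (hf : grpV (vt (cls 0) (cls 1) (cls 2)) cs env own sc l₁ h₁ l₂ h₂ l₃ h₃ d₁ d₂ d₃ w₀ w = true) : False := by
  unfold grpV at hf
  rw [force_eq] at hf
  have hz : Nat.mod (Nat.shiftRight w 8) 8192 < 8192 := Nat.mod_lt _ (by norm_num)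
  revert hf hz
  generalize Nat.mod (Nat.shiftRight w 8) 8192 = z
  generalize Nat.mod w 256 = i
  generalize Nat.shiftRight w 21 = w'
  intro hf hz
  rcases tg_cases env i (fun n =>
    @Bool.rec (fun _ => Bool) false
      (force (Nat.shiftRight n 9) fun cu =>
        nthK (vt (cls 0) (cls 1) (cls 2)) (Nat.mod (Nat.shiftRight n 1) 16) (fun lp =>
          nthK (vt (cls 0) (cls 1) (cls 2)) (Nat.mod (Nat.shiftRight n 5) 16) (fun lq =>
            grpD cs env own sc l₁ h₁ l₂ h₂ l₃ h₃ d₁ d₂ d₃ w₀ cu z w'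
              (fun x₁ x₂ x₃ k => vts z x₁ x₂ x₃ lp fun ps => vts z x₁ x₂ x₃ lq fun qs => k ps qs))
            false) false)
      (Nat.beq (Nat.mod n 2) 1)) false with h1 | ⟨n, hmem, h1⟩
  · rw [h1] at hf
    exact Bool.noConfusion hf
  · rw [h1] at hf
    obtain ⟨hb, hf⟩ := rec_true hf
    have hodd : n % 2 = 1 := Nat.eq_of_beq_eq_true hb
    have hT := hT_of_tag (X.env _ hmem) hodd
    have he := tag_lt n 1
    have hf5 := tag_lt n 5
    rw [force_eq] at hf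
    revert hf hT he hf5
    generalize Nat.shiftRight n 9 = cu
    generalize Nat.mod (Nat.shiftRight n 1) 16 = e
    generalize Nat.mod (Nat.shiftRight n 5) 16 = f
    intro hf hT he hf5
    rw [nthK_eq] at hf
    cases hn : nth (vt (cls 0) (cls 1) (cls 2)) e with
    | none =>
      rw [hn] at hf
      exact Bool.noConfusion hf
    | some lp =>
      rw [hn] at hf
      have hf' : nthK (vt (cls 0) (cls 1) (cls 2)) f (fun lq =>
            grpD cs env own sc l₁ h₁ l₂ h₂ l₃ h₃ d₁ d₂ d₃ w₀ cu z w'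
              (fun x₁ x₂ x₃ k => vts z x₁ x₂ x₃ lp fun ps => vts z x₁ x₂ x₃ lq fun qs => k ps qs))
            false = true := hf
      rw [nthK_eq] at hf'
      cases hm : nth (vt (cls 0) (cls 1) (cls 2)) f with
      | none =>
        rw [hm] at hf'
        exact Bool.noConfusion hf'
      | some lq =>
        rw [hm] at hf'
        obtain ⟨hlt, hl⟩ := nth_lt hn
        obtain ⟨hlt2, hl2⟩ := nth_lt hm
        have hl' : lp = (vt (cls 0) (cls 1) (cls 2)).getD e [] := by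
          rw [getD_eq hlt [] lp]
          exact hl
        have hl2' : lq = (vt (cls 0) (cls 1) (cls 2)).getD f [] := by
          rw [getD_eq hlt2 [] lq]
          exact hl2
        exact group_false X.H X.W0 X.Z1 X.G X.om X.ok X.lam0 X.Q hsc X.facts B.a₁ B.b₁ B.a₂ B.b₂ B.a₃ B.b₃
          hT he hf5 (by omega) hl' hl2'
          (fun x₁ x₂ x₃ k => by
            show vts z x₁ x₂ x₃ lp (fun ps => vts z x₁ x₂ x₃ lq fun qs => k ps qs) = _
            rw [vts_eq, vts_eq]) hf'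

theorem leaf3_false (X : Ctx W E cls d c s h lab Z cs lam env) {l₁ h₁ l₂ h₂ l₃ h₃ : ℕ}
    (B : Bx E l₁ h₁ l₂ h₂ l₃ h₃) {sc : Hd} (hsc : okH sc) {own d₁ d₂ d₃ g w₀ w : ℕ}
    (hf : leaf3 (vt (cls 0) (cls 1) (cls 2)) cs env own sc l₁ h₁ l₂ h₂ l₃ h₃ d₁ d₂ d₃ g w₀ w = true) : False := by
  unfold leaf3 at hf
  cases g with
  | zero =>
    exact plain_false X.Z1 X.G X.om X.ok X.lam0 X.Q hsc X.facts B.a₁ B.b₁ B.a₂ B.b₂ B.a₃ B.b₃ hf
  | succ g =>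
    cases g with
    | zero => exact grpW_false X B hsc hf
    | succ g => exact grpV_false X B hsc hf

theorem leaf2_false (X : Ctx W E cls d c s h lab Z cs lam env) {l₁ h₁ l₂ h₂ l₃ h₃ : ℕ}
    (B : Bx E l₁ h₁ l₂ h₂ l₃ h₃) {sc : Hd} (hsc : okH sc) {own d₁ d₂ d₃ g w₀ : ℕ}
    (hf : leaf2 (vt (cls 0) (cls 1) (cls 2)) cs env own sc l₁ h₁ l₂ h₂ l₃ h₃ d₁ d₂ d₃ g w₀ = true) : False := by
  unfold leaf2 at hf
  rw [force_eq] at hf
  exact leaf3_false X B hsc hf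

theorem leaf1_false (X : Ctx W E cls d c s h lab Z cs lam env) {l₁ h₁ l₂ h₂ l₃ h₃ : ℕ}
    (B : Bx E l₁ h₁ l₂ h₂ l₃ h₃) {r : ℕ}
    (hf : leaf1 (vt (cls 0) (cls 1) (cls 2)) cs env l₁ h₁ l₂ h₂ l₃ h₃ r = true) : False := by
  unfold leaf1 at hf
  revert hf
  generalize hm : mkHd (Nat.shiftRight r 10) = m
  intro hf
  cases m with
  | none => exact Bool.noConfusion (show false = true from hf)
  | some sc =>
    have hf' : (frcH sc fun sc =>
      force (Nat.shiftRight r (Nat.add 146 (Nat.mul 16 (Nat.mod r 16)))) fun w₀ =>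
      force (Nat.mod (Nat.shiftRight r 7) 2) fun d₁ => force (Nat.mod (Nat.shiftRight r 8) 2) fun d₂ =>
      force (Nat.mod (Nat.shiftRight r 9) 2) fun d₃ =>
      leaf2 (vt (cls 0) (cls 1) (cls 2)) cs env (Nat.mod (Nat.shiftRight r 4) 2) sc l₁ h₁ l₂ h₂ l₃ h₃ d₁ d₂ d₃
        (Nat.mod (Nat.shiftRight r 5) 4) w₀) = true := hf
    rw [frcH_eq, force_eq, force_eq, force_eq, force_eq] at hf'
    exact leaf2_false X B ⟨_, hm⟩ hf'

theorem bx_of {b1 b2 b3 : Ivl}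
    (h1 : (b1.lo : ℝ) / 65536 ≤ E.c 0 ∧ E.c 0 ≤ (b1.hi : ℝ) / 65536)
    (h2 : (b2.lo : ℝ) / 65536 ≤ E.c 1 ∧ E.c 1 ≤ (b2.hi : ℝ) / 65536)
    (h3 : (b3.lo : ℝ) / 65536 ≤ E.c 2 ∧ E.c 2 ≤ (b3.hi : ℝ) / 65536) :
    Bx E (Nat.div b1.lo 256) (nup b1.hi) (Nat.div b2.lo 256) (nup b2.hi) (Nat.div b3.lo 256) (nup b3.hi) := by
  have hd : ∀ x : ℕ, ((Nat.div x 256 : ℕ) : ℝ) * 256 ≤ x := fun x => by
    have : Nat.div x 256 * 256 ≤ x := Nat.div_mul_le_self x 256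
    exact_mod_cast this
  have u1 := nup_ge b1.hi
  have u2 := nup_ge b2.hi
  have u3 := nup_ge b3.hi
  have v1 := hd b1.lo
  have v2 := hd b2.lo
  have v3 := hd b3.lo
  obtain ⟨p1, q1⟩ := h1
  obtain ⟨p2, q2⟩ := h2
  obtain ⟨p3, q3⟩ := h3
  refine ⟨?_, ?_, ?_, ?_, ?_, ?_⟩ <;> linarith

/-- **the leaf** -/
theorem leafD_false (X : Ctx W E cls d c s h lab Z cs lam env) {box : List Ivl} (hbox : InBox E.c box) {r : ℕ}
    (hf : leafD (vt (cls 0) (cls 1) (cls 2)) cs env box r = true) : False := by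
  unfold leafD at hf
  rcases box4_cases box (fun l₁ h₁ l₂ h₂ l₃ h₃ _ _ =>
    force (Nat.div l₁ 256) fun l₁ => force (Nat.div l₂ 256) fun l₂ => force (Nat.div l₃ 256) fun l₃ =>
    force (nup h₁) fun h₁ => force (nup h₂) fun h₂ => force (nup h₃) fun h₃ =>
      leaf1 (vt (cls 0) (cls 1) (cls 2)) cs env l₁ h₁ l₂ h₂ l₃ h₃ r) false with
    h1 | ⟨b1, b2, b3, b4, n1, n2, n3, -, h1⟩
  · rw [h1] at hf
    exact Bool.noConfusion hf
  · rw [h1] at hf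
    rw [force_eq, force_eq, force_eq, force_eq, force_eq, force_eq] at hf
    exact leaf1_false X (bx_of (hbox 0 b1 n1) (hbox 1 b2 n2) (hbox 2 b3 n3)) hf

end

end Pool.Agent.Helper21.KD
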