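import Pool.Agent.Helper21.KD.LfC
import Pool.Agent.Helper1.TK.Snd0

/-!
# The leaf is correct in every state
-/

set_option autoImplicit false

namespace Pool.Agent.Helper21.KD

open Finset Matrix
open Pool.Agent.Helper28.TP (Ivl InBox nth Task Geo Ops OpsOK)
open Pool.Agent.Helper80.KD
open Pool.Agent.Helper80.TP (RD Item)
open Pool.Agent.Helper82.FL (V okV formV AtV)
open Pool.Agent.Helper1.TK (LeafOK geoD opsD_ok)

/-- **the leaf** -/
theorem leafOK : LeafOK := by
  intro E Z cls d c s h L H hZ hG t r ht hr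
  obtain ⟨h1, ⟨lam, h2, h3⟩, h4, h5⟩ := ht
  have hom : E.om = 1154 / 169 := by
    rw [H.om]
    norm_num
  have hAt : ∀ k, (geoD E (okI (577 / 169) E cls d L)).At t.cs k = AtV t.cs k := by
    intro k
    unfold Geo.At AtV
    cases nth t.cs k <;> rfl
  have hQ : E.Fᵀ * E.F = ∑ k ∈ range t.cs.length, lam k • AtV t.cs k := by
    have h3' : E.Fᵀ * E.F = ∑ k ∈ range t.cs.length,
      lam k • (geoD E (okI (577 / 169) E cls d L)).At t.cs k := h3
    rw [h3']
    exact Finset.sum_congr rfl fun k _ => by rw [hAt k]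
  exact leafD_false (W := 577 / 169) ⟨H, by norm_num, hZ, hG, hom, h1, h2, hQ, h4⟩ h5 hr

/-- **the machine** -/
theorem opsD_ok (E : RD) (Z : Matrix (Fin 3) (Fin 3) ℝ) (cls : Fin 3 → Bool) (d c s : Fin 3 → ℝ)
    (h : ℝ) (L : (Fin 3 → ℤ) → Fin 5) (H : HS (577 / 169) E cls d c s h L) (hZ : (E.Fᵀ * E.F) * Z = 1)
    (hG : E.G = E.F * Z) :
    OpsOK (geoD E (okI (577 / 169) E cls d L)) (opsD (cls 0) (cls 1) (cls 2)) :=
  Pool.Agent.Helper1.TK.opsD_ok leafOK E Z cls d c s h L H hZ hG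

end Pool.Agent.Helper21.KD
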